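import Pool.Agent.H81.LT.Base
import Pool.Agent.H81.LT.mpp0A
import Pool.Agent.H81.LT.mpp3A
import Pool.Agent.H81.LT.mpm1A
import Pool.Agent.H81.LT.mpm2A
import Pool.Agent.H81.LT.mmp0A
import Pool.Agent.H81.LT.mmp3A
import Pool.Agent.H81.LT.mmm1A
import Pool.Agent.H81.LT.mmm2A
import Pool.Agent.H81.LT.ppp0A
import Pool.Agent.H81.LT.ppp3A
import Pool.Agent.H81.LT.ppm1A
import Pool.Agent.H81.LT.ppm2A
import Pool.Agent.H81.LT.pmp0A
import Pool.Agent.H81.LT.pmp3A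
import Pool.Agent.H81.LT.pmm1A
import Pool.Agent.H81.LT.pmm2A

/-!
# Single ties with `h < w` and `h ≤ ⌊d / q⌋` do not exist
-/

namespace Pool.Agent.H81.LT

open Pool.Agent.H78.RT
open Pool.Agent.H78.Tie
open Pool.Agent.H78.Tie.TAp
open Pool.Agent.H78.SV
open Pool.Agent.H81.AP (LF dot dot_nil dot_nil' dot_cons AllNn AllNe)

variable {A : TAp} {T : A.Tie} {j r U S a V b : ℤ}

theorem c_mpp0A (d : ST A T (1)) (hsg : A.sg = 1) (hep : T.ep = -1)
    (h : Pt A j r U S a V b) (c1 : 2 ≤ U) (c2 : -(A.q * A.h : ℤ) ≤ S)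
    (c3 : U + S ≤ -(A.q * T.x) - A.sg) : False := by
  refine go d (sp := true) (ep := false) hsg hep h.cj h.cr (g := mpp0A_g) (la := mpp0A_q)
    ?_ ?_ mpp0A_k
  · obtain ⟨-, -, k1, k2, k3, k4, k5, k6, k7, k8⟩ := h
    have f := d.facts
    rw [hsg] at *
    unfold mpp0A_g env
    simp only [AllNn, dot_cons, dot_nil]
    refine ⟨?_, ?_, ?_, ?_, ?_, ?_, ?_, ?_, ?_, ?_, ?_, trivial⟩ <;> linarith
  · unfold mpp0A_q
    repeat' first | exact fnil | refine fcons ?_ ?_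
    all_goals (simp only [res, sgv, dot_cons, dot_nil]; ring)

theorem c_mpp3A (d : ST A T (1)) (hsg : A.sg = 1) (hep : T.ep = -1)
    (h : Pt A j r U S a V b) (c1 : -(A.q * A.w : ℤ) - A.sg + 2 ≤ U) (c2 : (A.q * A.w : ℤ) ≤ S)
    (c3 : U + S ≤ A.q * A.h - A.q * T.x - A.sg) : False := by
  refine go d (sp := true) (ep := false) hsg hep h.cj h.cr (g := mpp3A_g) (la := mpp3A_q)
    ?_ ?_ mpp3A_k
  · obtain ⟨-, -, k1, k2, k3, k4, k5, k6, k7, k8⟩ := h
    have f := d.facts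
    rw [hsg] at *
    unfold mpp3A_g env
    simp only [AllNn, dot_cons, dot_nil]
    refine ⟨?_, ?_, ?_, ?_, ?_, ?_, ?_, ?_, ?_, ?_, ?_, trivial⟩ <;> linarith
  · unfold mpp3A_q
    repeat' first | exact fnil | refine fcons ?_ ?_
    all_goals (simp only [res, sgv, dot_cons, dot_nil]; ring)

theorem c_mpm1A (d : ST A T (-1)) (hsg : A.sg = 1) (hep : T.ep = -1)
    (h : Pt A j r U S a V b) (c1 : -(A.q * A.w : ℤ) - A.sg + 2 ≤ U) (c2 : (A.q * A.w : ℤ) - A.q * T.x - A.q * A.h ≤ S)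
    (c3 : U + S ≤ 0) : False := by
  refine go d (sp := true) (ep := false) hsg hep h.cj h.cr (g := mpm1A_g) (la := mpm1A_q)
    ?_ ?_ mpm1A_k
  · obtain ⟨-, -, k1, k2, k3, k4, k5, k6, k7, k8⟩ := h
    have f := d.facts
    rw [hsg] at *
    unfold mpm1A_g env
    simp only [AllNn, dot_cons, dot_nil]
    refine ⟨?_, ?_, ?_, ?_, ?_, ?_, ?_, ?_, ?_, ?_, ?_, trivial⟩ <;> linarith
  · unfold mpm1A_q
    repeat' first | exact fnil | refine fcons ?_ ?_
    all_goals (simp only [res, sgv, dot_cons, dot_nil]; ring)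

theorem c_mpm2A (d : ST A T (-1)) (hsg : A.sg = 1) (hep : T.ep = -1)
    (h : Pt A j r U S a V b) (c1 : 2 ≤ U) (c2 : -(A.q * T.x) ≤ S)
    (c3 : U + S ≤ A.q * A.h) : False := by
  refine go d (sp := true) (ep := false) hsg hep h.cj h.cr (g := mpm2A_g) (la := mpm2A_q)
    ?_ ?_ mpm2A_k
  · obtain ⟨-, -, k1, k2, k3, k4, k5, k6, k7, k8⟩ := h
    have f := d.facts
    rw [hsg] at *
    unfold mpm2A_g env
    simp only [AllNn, dot_cons, dot_nil]
    refine ⟨?_, ?_, ?_, ?_, ?_, ?_, ?_, ?_, ?_, ?_, ?_, trivial⟩ <;> linarith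
  · unfold mpm2A_q
    repeat' first | exact fnil | refine fcons ?_ ?_
    all_goals (simp only [res, sgv, dot_cons, dot_nil]; ring)

theorem c_mmp0A (d : ST A T (1)) (hsg : A.sg = -1) (hep : T.ep = -1)
    (h : Pt A j r U S a V b) (c1 : 2 ≤ U) (c2 : -(A.q * A.h : ℤ) ≤ S)
    (c3 : U + S ≤ -(A.q * T.x) - A.sg) : False := by
  refine go d (sp := false) (ep := false) hsg hep h.cj h.cr (g := mmp0A_g) (la := mmp0A_q)
    ?_ ?_ mmp0A_k
  · obtain ⟨-, -, k1, k2, k3, k4, k5, k6, k7, k8⟩ := h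
    have f := d.facts
    rw [hsg] at *
    unfold mmp0A_g env
    simp only [AllNn, dot_cons, dot_nil]
    refine ⟨?_, ?_, ?_, ?_, ?_, ?_, ?_, ?_, ?_, ?_, ?_, trivial⟩ <;> linarith
  · unfold mmp0A_q
    repeat' first | exact fnil | refine fcons ?_ ?_
    all_goals (simp only [res, sgv, dot_cons, dot_nil]; ring)

theorem c_mmp3A (d : ST A T (1)) (hsg : A.sg = -1) (hep : T.ep = -1)
    (h : Pt A j r U S a V b) (c1 : -(A.q * A.w : ℤ) - A.sg + 2 ≤ U) (c2 : (A.q * A.w : ℤ) ≤ S)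
    (c3 : U + S ≤ A.q * A.h - A.q * T.x - A.sg) : False := by
  refine go d (sp := false) (ep := false) hsg hep h.cj h.cr (g := mmp3A_g) (la := mmp3A_q)
    ?_ ?_ mmp3A_k
  · obtain ⟨-, -, k1, k2, k3, k4, k5, k6, k7, k8⟩ := h
    have f := d.facts
    rw [hsg] at *
    unfold mmp3A_g env
    simp only [AllNn, dot_cons, dot_nil]
    refine ⟨?_, ?_, ?_, ?_, ?_, ?_, ?_, ?_, ?_, ?_, ?_, trivial⟩ <;> linarith
  · unfold mmp3A_q
    repeat' first | exact fnil | refine fcons ?_ ?_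
    all_goals (simp only [res, sgv, dot_cons, dot_nil]; ring)

theorem c_mmm1A (d : ST A T (-1)) (hsg : A.sg = -1) (hep : T.ep = -1)
    (h : Pt A j r U S a V b) (c1 : -(A.q * A.w : ℤ) - A.sg + 2 ≤ U) (c2 : (A.q * A.w : ℤ) - A.q * T.x - A.q * A.h ≤ S)
    (c3 : U + S ≤ 0) : False := by
  refine go d (sp := false) (ep := false) hsg hep h.cj h.cr (g := mmm1A_g) (la := mmm1A_q)
    ?_ ?_ mmm1A_k
  · obtain ⟨-, -, k1, k2, k3, k4, k5, k6, k7, k8⟩ := h
    have f := d.facts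
    rw [hsg] at *
    unfold mmm1A_g env
    simp only [AllNn, dot_cons, dot_nil]
    refine ⟨?_, ?_, ?_, ?_, ?_, ?_, ?_, ?_, ?_, ?_, ?_, trivial⟩ <;> linarith
  · unfold mmm1A_q
    repeat' first | exact fnil | refine fcons ?_ ?_
    all_goals (simp only [res, sgv, dot_cons, dot_nil]; ring)

theorem c_mmm2A (d : ST A T (-1)) (hsg : A.sg = -1) (hep : T.ep = -1)
    (h : Pt A j r U S a V b) (c1 : 2 ≤ U) (c2 : -(A.q * T.x) ≤ S)
    (c3 : U + S ≤ A.q * A.h) : False := by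
  refine go d (sp := false) (ep := false) hsg hep h.cj h.cr (g := mmm2A_g) (la := mmm2A_q)
    ?_ ?_ mmm2A_k
  · obtain ⟨-, -, k1, k2, k3, k4, k5, k6, k7, k8⟩ := h
    have f := d.facts
    rw [hsg] at *
    unfold mmm2A_g env
    simp only [AllNn, dot_cons, dot_nil]
    refine ⟨?_, ?_, ?_, ?_, ?_, ?_, ?_, ?_, ?_, ?_, ?_, trivial⟩ <;> linarith
  · unfold mmm2A_q
    repeat' first | exact fnil | refine fcons ?_ ?_
    all_goals (simp only [res, sgv, dot_cons, dot_nil]; ring)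

theorem c_ppp0A (d : ST A T (1)) (hsg : A.sg = 1) (hep : T.ep = 1)
    (h : Pt A j r U S a V b) (c1 : (A.q * A.w : ℤ) + A.sg + 2 ≤ U) (c2 : A.q * T.x - A.q * A.w - A.q * A.h ≤ S)
    (c3 : U + S ≤ 0) : False := by
  refine go d (sp := true) (ep := true) hsg hep h.cj h.cr (g := ppp0A_g) (la := ppp0A_q)
    ?_ ?_ ppp0A_k
  · obtain ⟨-, -, k1, k2, k3, k4, k5, k6, k7, k8⟩ := h
    have f := d.facts
    rw [hsg] at *
    unfold ppp0A_g env
    simp only [AllNn, dot_cons, dot_nil]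
    refine ⟨?_, ?_, ?_, ?_, ?_, ?_, ?_, ?_, ?_, ?_, ?_, trivial⟩ <;> linarith
  · unfold ppp0A_q
    repeat' first | exact fnil | refine fcons ?_ ?_
    all_goals (simp only [res, sgv, dot_cons, dot_nil]; ring)

theorem c_ppp3A (d : ST A T (1)) (hsg : A.sg = 1) (hep : T.ep = 1)
    (h : Pt A j r U S a V b) (c1 : 2 ≤ U) (c2 : A.q * T.x ≤ S)
    (c3 : U + S ≤ A.q * A.h) : False := by
  refine go d (sp := true) (ep := true) hsg hep h.cj h.cr (g := ppp3A_g) (la := ppp3A_q)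
    ?_ ?_ ppp3A_k
  · obtain ⟨-, -, k1, k2, k3, k4, k5, k6, k7, k8⟩ := h
    have f := d.facts
    rw [hsg] at *
    unfold ppp3A_g env
    simp only [AllNn, dot_cons, dot_nil]
    refine ⟨?_, ?_, ?_, ?_, ?_, ?_, ?_, ?_, ?_, ?_, ?_, trivial⟩ <;> linarith
  · unfold ppp3A_q
    repeat' first | exact fnil | refine fcons ?_ ?_
    all_goals (simp only [res, sgv, dot_cons, dot_nil]; ring)

theorem c_ppm1A (d : ST A T (-1)) (hsg : A.sg = 1) (hep : T.ep = 1)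
    (h : Pt A j r U S a V b) (c1 : 2 ≤ U) (c2 : -(A.q * A.h : ℤ) ≤ S)
    (c3 : U + S ≤ A.q * T.x + A.sg) : False := by
  refine go d (sp := true) (ep := true) hsg hep h.cj h.cr (g := ppm1A_g) (la := ppm1A_q)
    ?_ ?_ ppm1A_k
  · obtain ⟨-, -, k1, k2, k3, k4, k5, k6, k7, k8⟩ := h
    have f := d.facts
    rw [hsg] at *
    unfold ppm1A_g env
    simp only [AllNn, dot_cons, dot_nil]
    refine ⟨?_, ?_, ?_, ?_, ?_, ?_, ?_, ?_, ?_, ?_, ?_, trivial⟩ <;> linarith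
  · unfold ppm1A_q
    repeat' first | exact fnil | refine fcons ?_ ?_
    all_goals (simp only [res, sgv, dot_cons, dot_nil]; ring)

theorem c_ppm2A (d : ST A T (-1)) (hsg : A.sg = 1) (hep : T.ep = 1)
    (h : Pt A j r U S a V b) (c1 : (A.q * A.w : ℤ) + A.sg + 2 ≤ U) (c2 : -(A.q * A.w : ℤ) ≤ S)
    (c3 : U + S ≤ A.q * A.h + A.q * T.x + A.sg) : False := by
  refine go d (sp := true) (ep := true) hsg hep h.cj h.cr (g := ppm2A_g) (la := ppm2A_q)
    ?_ ?_ ppm2A_k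
  · obtain ⟨-, -, k1, k2, k3, k4, k5, k6, k7, k8⟩ := h
    have f := d.facts
    rw [hsg] at *
    unfold ppm2A_g env
    simp only [AllNn, dot_cons, dot_nil]
    refine ⟨?_, ?_, ?_, ?_, ?_, ?_, ?_, ?_, ?_, ?_, ?_, trivial⟩ <;> linarith
  · unfold ppm2A_q
    repeat' first | exact fnil | refine fcons ?_ ?_
    all_goals (simp only [res, sgv, dot_cons, dot_nil]; ring)

theorem c_pmp0A (d : ST A T (1)) (hsg : A.sg = -1) (hep : T.ep = 1)
    (h : Pt A j r U S a V b) (c1 : (A.q * A.w : ℤ) + A.sg + 2 ≤ U) (c2 : A.q * T.x - A.q * A.w - A.q * A.h ≤ S)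
    (c3 : U + S ≤ 0) : False := by
  refine go d (sp := false) (ep := true) hsg hep h.cj h.cr (g := pmp0A_g) (la := pmp0A_q)
    ?_ ?_ pmp0A_k
  · obtain ⟨-, -, k1, k2, k3, k4, k5, k6, k7, k8⟩ := h
    have f := d.facts
    rw [hsg] at *
    unfold pmp0A_g env
    simp only [AllNn, dot_cons, dot_nil]
    refine ⟨?_, ?_, ?_, ?_, ?_, ?_, ?_, ?_, ?_, ?_, ?_, trivial⟩ <;> linarith
  · unfold pmp0A_q
    repeat' first | exact fnil | refine fcons ?_ ?_
    all_goals (simp only [res, sgv, dot_cons, dot_nil]; ring)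

theorem c_pmp3A (d : ST A T (1)) (hsg : A.sg = -1) (hep : T.ep = 1)
    (h : Pt A j r U S a V b) (c1 : 2 ≤ U) (c2 : A.q * T.x ≤ S)
    (c3 : U + S ≤ A.q * A.h) : False := by
  refine go d (sp := false) (ep := true) hsg hep h.cj h.cr (g := pmp3A_g) (la := pmp3A_q)
    ?_ ?_ pmp3A_k
  · obtain ⟨-, -, k1, k2, k3, k4, k5, k6, k7, k8⟩ := h
    have f := d.facts
    rw [hsg] at *
    unfold pmp3A_g env
    simp only [AllNn, dot_cons, dot_nil]
    refine ⟨?_, ?_, ?_, ?_, ?_, ?_, ?_, ?_, ?_, ?_, ?_, trivial⟩ <;> linarith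
  · unfold pmp3A_q
    repeat' first | exact fnil | refine fcons ?_ ?_
    all_goals (simp only [res, sgv, dot_cons, dot_nil]; ring)

theorem c_pmm1A (d : ST A T (-1)) (hsg : A.sg = -1) (hep : T.ep = 1)
    (h : Pt A j r U S a V b) (c1 : 2 ≤ U) (c2 : -(A.q * A.h : ℤ) ≤ S)
    (c3 : U + S ≤ A.q * T.x + A.sg) : False := by
  refine go d (sp := false) (ep := true) hsg hep h.cj h.cr (g := pmm1A_g) (la := pmm1A_q)
    ?_ ?_ pmm1A_k
  · obtain ⟨-, -, k1, k2, k3, k4, k5, k6, k7, k8⟩ := h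
    have f := d.facts
    rw [hsg] at *
    unfold pmm1A_g env
    simp only [AllNn, dot_cons, dot_nil]
    refine ⟨?_, ?_, ?_, ?_, ?_, ?_, ?_, ?_, ?_, ?_, ?_, trivial⟩ <;> linarith
  · unfold pmm1A_q
    repeat' first | exact fnil | refine fcons ?_ ?_
    all_goals (simp only [res, sgv, dot_cons, dot_nil]; ring)

theorem c_pmm2A (d : ST A T (-1)) (hsg : A.sg = -1) (hep : T.ep = 1)
    (h : Pt A j r U S a V b) (c1 : (A.q * A.w : ℤ) + A.sg + 2 ≤ U) (c2 : -(A.q * A.w : ℤ) ≤ S)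
    (c3 : U + S ≤ A.q * A.h + A.q * T.x + A.sg) : False := by
  refine go d (sp := false) (ep := true) hsg hep h.cj h.cr (g := pmm2A_g) (la := pmm2A_q)
    ?_ ?_ pmm2A_k
  · obtain ⟨-, -, k1, k2, k3, k4, k5, k6, k7, k8⟩ := h
    have f := d.facts
    rw [hsg] at *
    unfold pmm2A_g env
    simp only [AllNn, dot_cons, dot_nil]
    refine ⟨?_, ?_, ?_, ?_, ?_, ?_, ?_, ?_, ?_, ?_, ?_, trivial⟩ <;> linarith
  · unfold pmm2A_q
    repeat' first | exact fnil | refine fcons ?_ ?_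
    all_goals (simp only [res, sgv, dot_cons, dot_nil]; ring)

/-- **single ties with `h < w`, `h ≤ md` do not exist** -/
theorem no_gt (F : A.Fl) (T : A.Tie) (hs : T.Single) (ht : T.t ≠ 1) (hx0 : T.x ≠ 0)
    (hx1 : |T.x| < A.h) (hwh : A.h < A.w) (hd : (A.h : ℤ) ≤ A.md) : False := by
  have hq := A.q_pos'
  have hp := A.p_pos'
  obtain ⟨j, U, S, cj, jt, B⟩ := triT F T hx0 hx1 (fun h => by omega)
  have hk : ¬ (A.p : ℤ) ∣ (A.h : ℤ) - A.w := by
    intro h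
    have h1 : (A.p : ℤ) ∣ (A.w : ℤ) - A.h := by rwa [← dvd_neg, neg_sub]
    have h2 := A.w2
    have h3 := Int.le_of_dvd (by omega) h1
    omega
  obtain ⟨r, V, cr, b0, b1, V1, V0⟩ := exK A hk
  have h : Pt A j r U S (th A j) V (th A r) := by
    refine ⟨cj, cr, ?_, ?_, ?_, ?_, b0, b1, V1, V0⟩
    · have := mul_le_mul_of_nonneg_left (show (A.h : ℤ) + 1 ≤ A.w by omega) hq.le
      rwa [mul_add, mul_one] at this
    · have h1 := A.hfd
      have := mul_le_mul_of_nonneg_left hd hq.le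
      unfold TAp.D; omega
    · have := th_pos A cj.2.1; omega
    · have := th_ltD A cj.2.2; omega
  obtain ⟨B1, B2, B3, B4⟩ := B
  rw [abs_lt] at hx1
  rcases T.hep with he | he <;> rcases lt_or_gt_of_ne hx0 with hx | hx
  · have d : ST A T (-1) := ⟨F, hs, ht, by omega, by omega⟩
    rcases A.hsg with hg | hg
    · rcases B4 he hx with ⟨c1, c2, c3⟩ | ⟨c1, c2, c3⟩
      · exact c_ppm1A d hg he h c1 c2 c3
      · exact c_ppm2A d hg he h c1 c2 c3
    · rcases B4 he hx with ⟨c1, c2, c3⟩ | ⟨c1, c2, c3⟩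
      · exact c_pmm1A d hg he h c1 c2 c3
      · exact c_pmm2A d hg he h c1 c2 c3
  · have d : ST A T 1 := ⟨F, hs, ht, by omega, by omega⟩
    rcases A.hsg with hg | hg
    · rcases B3 he hx with ⟨c1, c2, c3⟩ | ⟨c1, c2, c3⟩
      · exact c_ppp0A d hg he h c1 c2 c3
      · exact c_ppp3A d hg he h c1 c2 c3
    · rcases B3 he hx with ⟨c1, c2, c3⟩ | ⟨c1, c2, c3⟩
      · exact c_pmp0A d hg he h c1 c2 c3
      · exact c_pmp3A d hg he h c1 c2 c3
  · have d : ST A T (-1) := ⟨F, hs, ht, by omega, by omega⟩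
    rcases A.hsg with hg | hg
    · rcases B2 he hx with ⟨c1, c2, c3⟩ | ⟨c1, c2, c3⟩
      · exact c_mpm1A d hg he h c1 c2 c3
      · exact c_mpm2A d hg he h c1 c2 c3
    · rcases B2 he hx with ⟨c1, c2, c3⟩ | ⟨c1, c2, c3⟩
      · exact c_mmm1A d hg he h c1 c2 c3
      · exact c_mmm2A d hg he h c1 c2 c3
  · have d : ST A T 1 := ⟨F, hs, ht, by omega, by omega⟩
    rcases A.hsg with hg | hg
    · rcases B1 he hx with ⟨c1, c2, c3⟩ | ⟨c1, c2, c3⟩
      · exact c_mpp0A d hg he h c1 c2 c3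
      · exact c_mpp3A d hg he h c1 c2 c3
    · rcases B1 he hx with ⟨c1, c2, c3⟩ | ⟨c1, c2, c3⟩
      · exact c_mmp0A d hg he h c1 c2 c3
      · exact c_mmp3A d hg he h c1 c2 c3

end Pool.Agent.H81.LT
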