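import Pool.Agent.H78.SV.Base
import Pool.Agent.H78.SV.TriT

/-!
# Single ties with `h < w`: the third class at the tie and the class of row `h - w`
-/

namespace Pool.Agent.H81.LT

open Pool.Agent.H78.RT
open Pool.Agent.H78.Tie
open Pool.Agent.H78.Tie.TAp
open Pool.Agent.H78.SV
open Pool.Agent.H81.AP (LF dot dot_nil dot_nil' dot_cons AllNn AllNe)
open Pool.Agent.H23.DT (exists_rep)

theorem dot_dvd {q : ℤ} : ∀ {F v v' : List ℤ}, List.Forall₂ (fun a b => q ∣ a - b) v v' →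
    q ∣ dot F v - dot F v'
  | [], v, v', _ => by rw [dot_nil, dot_nil]; simp
  | _ :: _, [], [], _ => by rw [dot_nil']; simp
  | c :: F, x :: v, y :: v', h => by
    cases h with
    | cons h1 h2 =>
      rw [dot_cons, dot_cons]
      have := dvd_add (h1.mul_left c) (dot_dvd (F := F) h2)
      rwa [show c * (x - y) + (dot F v - dot F v') = c * x + dot F v - (c * y + dot F v') by ring]
        at this

/-- the class of a given row -/
theorem exK (A : TAp) {k : ℤ} (hk : ¬ (A.p : ℤ) ∣ k) :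
    ∃ j U, IsC A j U (A.q * k) (th A j) ∧ 1 ≤ th A j ∧ th A j + 1 ≤ A.D ∧
      2 * U ≤ NN A ∧ -NN A ≤ 2 * U := by
  obtain ⟨j, j0, j1, hj⟩ := idx_of A k
  have jn : j ≠ 0 := by
    rintro rfl
    apply hk
    rwa [mul_zero, zero_sub, dvd_neg] at hj
  obtain ⟨U, hU, U0, U1⟩ := exists_rep (NN_pos A) (A.a * j)
  have h1 := th_pos A (show 0 < j by omega)
  have h2 := th_ltD A j1
  exact ⟨j, U, ⟨Rec.of hU hj, by omega, j1⟩, by omega, by omega, U1, U0⟩

/-- the classes of the trees -/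
def JJ : List LR := [⟨[0, 0, 0, 0, 0, 0, 0, 0, 0, 0, 1], [0, 0, 0, 0, 0, 0, 0, 0, 0, 1],
  [0, 0, 0, 0, 0, 0, 0, 0, 1]⟩, ⟨[0, 0, 0, 0, 0, 0, 0, 0, 0, 0, 0, 0, 1], [0, 0, -1, 1],
  [0, 0, 0, 0, 0, 0, 0, 0, 0, 0, 0, 1]⟩]

/-- residues of the environment -/
def res (es D a b : ℤ) : List ℤ := [1, 0, 0, 0, D, 0, es, 0, a, 0, a, b, b]

theorem go {A : TAp} {T : A.Tie} {sx : ℤ} (d : ST A T sx) {sp ep : Bool} (hsg : A.sg = sgv sp)
    (hep : T.ep = sgv ep) {j r U S a V b : ℤ} (cj : IsC A j U S a)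
    (cr : IsC A r V (A.q * ((A.h : ℤ) - A.w)) b) {g la : List LF}
    (hg : AllNn (env A T [a, S, U, b, V]) g)
    (hla : ∀ F ∈ la, dot F (res (sgv ep * sgv sp) A.D a b) = 0)
    {t : Pool.Agent.H78.RT.T} (h : (mkS sp ep sx JJ g [] la).chk t = true) : False := by
  refine d.run hsg hep (J := JJ) (g := g) (ne := []) (la := la) (r := [a, S, U, b, V]) ?_ hg
    trivial ?_ h
  · refine ⟨⟨j, ?_⟩, ⟨r, ?_⟩, trivial⟩
    · unfold LR.Cl env
      simp only [dot_cons, dot_nil]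
      convert cj using 1 <;> ring
    · unfold LR.Cl env
      simp only [dot_cons, dot_nil]
      convert cr using 1 <;> ring
  · intro F hF
    have h1 := d.q_th
    rw [hsg, hep] at h1
    obtain ⟨s, hs, -⟩ := cj.1.2.1
    have h2 : List.Forall₂ (fun a b => (A.q : ℤ) ∣ a - b) (1 :: env A T [a, S, U, b, V])
        (res (sgv ep * sgv sp) A.D a b) := by
      unfold env res
      refine .cons (by simp) (.cons (by rw [sub_zero]; exact dvd_mul_left _ _)
        (.cons (by simp) (.cons (by simp) (.cons (by simp) (.cons (by simp) (.cons h1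
        (.cons (by simp) (.cons (by simp) (.cons ⟨s, by rw [hs]; ring⟩ (.cons cj.1.mod
        (.cons (by simp) (.cons cr.1.mod .nil))))))))))))
    have := dot_dvd (F := F) h2
    rwa [hla F hF, sub_zero] at this

theorem fnil {v : List ℤ} : ∀ F ∈ ([] : List LF), dot F v = 0 := by simp

theorem fcons {v : List ℤ} {F : LF} {la : List LF} (h : dot F v = 0) (t : ∀ G ∈ la, dot G v = 0) :
    ∀ G ∈ F :: la, dot G v = 0 := by
  intro G hG
  rcases List.mem_cons.1 hG with rfl | hG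
  · exact h
  · exact t G hG

/-- inequalities on the two classes -/
structure Pt (A : TAp) (j r U S a V b : ℤ) : Prop where
  cj : IsC A j U S a
  cr : IsC A r V (A.q * ((A.h : ℤ) - A.w)) b
  wh : A.q * (A.h : ℤ) + A.q ≤ A.q * A.w
  hd : A.q * (A.h : ℤ) ≤ A.D
  a0 : 1 ≤ a
  a1 : a + 1 ≤ A.D
  b0 : 1 ≤ b
  b1 : b + 1 ≤ A.D
  V1 : 2 * V ≤ NN A
  V0 : -NN A ≤ 2 * V

end Pool.Agent.H81.LT
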